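import Pool.Agent.H17.NF.N

/-!
# NF: boxes of algebraic integers: coordinates, finiteness, translation
-/

set_option autoImplicit false

namespace Pool.NF

open Matrix NumberField IsDedekindDomain Module

/-- Integral coordinates: the absolute values of the coordinates with respect to a basis of `𝓞 K`
over `ℤ` and the absolute values of the conjugates bound each other. -/
theorem coords (K : Type) [Field K] [NumberField K] :
    ∃ (A : ℝ) (φ : 𝓞 K ≃+ ((K →+* ℂ) → ℤ)), 0 < A ∧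
      (∀ (x : 𝓞 K) (ρ : ℝ), 0 ≤ ρ → (∀ σ : K →+* ℂ, ‖σ (x : K)‖ ≤ ρ) →
        ∀ i, |(φ x i : ℝ)| ≤ A * ρ) ∧
      (∀ (x : 𝓞 K) (ρ : ℝ), 0 ≤ ρ → (∀ i, |(φ x i : ℝ)| ≤ ρ) →
        ∀ σ : K →+* ℂ, ‖σ (x : K)‖ ≤ A * ρ) := by
  classical
  set b := (RingOfIntegers.basis K).reindex (equivReindex K).symm with hb
  set M := ((basisMatrix K).transpose)⁻¹ with hM
  set A1 : ℝ := ∑ i, ∑ j, ‖M i j‖ with hA1
  set A2 : ℝ := ∑ σ : K →+* ℂ, ∑ i, ‖σ ((b i : 𝓞 K) : K)‖ with hA2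
  have hA1' : 0 ≤ A1 := Finset.sum_nonneg fun _ _ => Finset.sum_nonneg fun _ _ => norm_nonneg _
  have hA2' : 0 ≤ A2 := Finset.sum_nonneg fun _ _ => Finset.sum_nonneg fun _ _ => norm_nonneg _
  refine ⟨A1 + A2 + 1, b.equivFun.toAddEquiv, by positivity, ?_, ?_⟩
  · intro x ρ hρ hx i
    have h1 : ((b.equivFun x i : ℤ) : ℂ) = ∑ j, M i j * j (x : K) := by
      have h := inverse_basisMatrix_mulVec_eq_repr (K := K) x i
      have h2 : (((integralBasis K).reindex (equivReindex K).symm).repr (x : K) i)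
          = ((b.equivFun x i : ℤ) : ℚ) := by
        rw [hb, Basis.equivFun_apply, Basis.repr_reindex, Basis.repr_reindex,
          Finsupp.mapDomain_equiv_apply, Finsupp.mapDomain_equiv_apply]
        have := integralBasis_repr_apply (K := K) x ((equivReindex K).symm.symm i)
        simpa using this
      rw [h2] at h
      have h3 : ((b.equivFun x i : ℤ) : ℂ) = (((b.equivFun x i : ℤ) : ℚ) : ℂ) := by push_cast; rfl
      rw [h3, ← h]
      rfl
    have h2 : |((b.equivFun x i : ℤ) : ℝ)| = ‖((b.equivFun x i : ℤ) : ℂ)‖ := by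
      rw [Complex.norm_intCast]
    have h3 : ‖((b.equivFun x i : ℤ) : ℂ)‖ ≤ (∑ j, ‖M i j‖) * ρ := by
      rw [h1, Finset.sum_mul]
      refine (norm_sum_le _ _).trans (Finset.sum_le_sum fun j _ => ?_)
      rw [norm_mul]
      exact mul_le_mul_of_nonneg_left (hx j) (norm_nonneg _)
    have h4 : (∑ j, ‖M i j‖) ≤ A1 := by
      rw [hA1]
      exact Finset.single_le_sum (f := fun i => ∑ j, ‖M i j‖)
        (fun _ _ => Finset.sum_nonneg fun _ _ => norm_nonneg _) (Finset.mem_univ i)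
    change |((b.equivFun x i : ℤ) : ℝ)| ≤ _
    rw [h2]
    exact h3.trans (mul_le_mul_of_nonneg_right (by linarith) hρ)
  · intro x ρ hρ hx σ
    have h1 : (x : K) = ∑ i, ((b.equivFun x i : ℤ) : K) * ((b i : 𝓞 K) : K) := by
      conv_lhs => rw [← b.sum_equivFun x]
      rw [RingOfIntegers.coe_eq_algebraMap, map_sum]
      exact Finset.sum_congr rfl fun i _ => by rw [zsmul_eq_mul, map_mul, map_intCast]
    have h2 : ‖σ (x : K)‖ ≤ (∑ i, ‖σ ((b i : 𝓞 K) : K)‖) * ρ := by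
      conv_lhs => rw [h1]
      rw [map_sum, Finset.sum_mul]
      refine (norm_sum_le _ _).trans (Finset.sum_le_sum fun i _ => ?_)
      rw [map_mul, norm_mul, map_intCast, Complex.norm_intCast, mul_comm]
      exact mul_le_mul_of_nonneg_left (hx i) (norm_nonneg _)
    have h3 : (∑ i, ‖σ ((b i : 𝓞 K) : K)‖) ≤ A2 := by
      rw [hA2]
      exact Finset.single_le_sum (f := fun σ : K →+* ℂ => ∑ i, ‖σ ((b i : 𝓞 K) : K)‖)
        (fun _ _ => Finset.sum_nonneg fun _ _ => norm_nonneg _) (Finset.mem_univ σ)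
    exact h2.trans (mul_le_mul_of_nonneg_right (by linarith) hρ)

section

variable {K : Type} [Field K] [NumberField K]

theorem bx_finite (ρ : ℝ) : (Bx K ρ).Finite := by
  refine Set.Finite.subset ((Embeddings.finite_of_norm_le K ℂ ρ).preimage
    (f := fun a : 𝓞 K => (a : K)) (RingOfIntegers.coe_injective.injOn)) ?_
  intro a ha
  exact ⟨a.2, ha⟩

theorem bx_add {a b : 𝓞 K} {ρ κ : ℝ} (ha : a ∈ Bx K ρ) (hb : b ∈ Bx K κ) :
    a + b ∈ Bx K (ρ + κ) := by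
  intro σ
  have : σ ((a + b : 𝓞 K) : K) = σ (a : K) + σ (b : K) := by
    rw [← map_add]; rfl
  rw [this]
  exact (norm_add_le _ _).trans (add_le_add (ha σ) (hb σ))

theorem bx_neg {a : 𝓞 K} {ρ : ℝ} (ha : a ∈ Bx K ρ) : -a ∈ Bx K ρ := by
  intro σ
  have : σ ((-a : 𝓞 K) : K) = -σ (a : K) := by
    rw [← map_neg]; rfl
  rw [this, norm_neg]
  exact ha σ

theorem bx_sub {a b : 𝓞 K} {ρ κ : ℝ} (ha : a ∈ Bx K ρ) (hb : b ∈ Bx K κ) :
    a - b ∈ Bx K (ρ + κ) := by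
  rw [sub_eq_add_neg]
  exact bx_add ha (bx_neg hb)

theorem bx_mono {ρ κ : ℝ} (h : ρ ≤ κ) : Bx K ρ ⊆ Bx K κ := fun _ ha σ => (ha σ).trans h

/-- Every element lies in some box. -/
theorem exists_bx (a : 𝓞 K) : ∃ κ : ℝ, 0 ≤ κ ∧ a ∈ Bx K κ := by
  refine ⟨∑ σ : K →+* ℂ, ‖σ (a : K)‖, Finset.sum_nonneg fun _ _ => norm_nonneg _, fun σ => ?_⟩
  exact Finset.single_le_sum (f := fun σ : K →+* ℂ => ‖σ (a : K)‖)
    (fun _ _ => norm_nonneg _) (Finset.mem_univ σ)

theorem ni_eq (I : Ideal (𝓞 K)) : Ni I = Ideal.absNorm I := by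
  rw [Ideal.absNorm_apply, Submodule.cardQuot_apply]
  rfl

theorem ni_pos {I : Ideal (𝓞 K)} (hI : I ≠ ⊥) : 0 < Ni I := by
  rw [ni_eq]
  exact Nat.pos_of_ne_zero (fun h => hI (Ideal.absNorm_eq_zero_iff.mp h))

theorem finite_quot {I : Ideal (𝓞 K)} (hI : I ≠ ⊥) : Finite (𝓞 K ⧸ I) :=
  Nat.finite_of_card_ne_zero (ni_pos hI).ne'

/-- A number `κ` such that every class of `I` has a representative in `Bx K κ`. -/
theorem exists_reps {I : Ideal (𝓞 K)} (hI : I ≠ ⊥) :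
    ∃ κ : ℝ, 0 ≤ κ ∧ ∀ r : 𝓞 K, ∃ s ∈ Bx K κ, s - r ∈ I := by
  classical
  have := finite_quot hI
  have := Fintype.ofFinite (𝓞 K ⧸ I)
  choose κ hκ0 hκ using fun q : 𝓞 K ⧸ I => exists_bx (Quotient.out q)
  refine ⟨∑ q, κ q, Finset.sum_nonneg fun q _ => hκ0 q, fun r => ?_⟩
  refine ⟨Quotient.out (Ideal.Quotient.mk I r), bx_mono (Finset.single_le_sum
    (fun q _ => hκ0 q) (Finset.mem_univ _)) (hκ _), ?_⟩
  rw [← Ideal.Quotient.mk_eq_mk_iff_sub_mem]
  exact Quotient.out_eq _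

/-- Translation from one class to another. -/
theorem class_le {I : Ideal (𝓞 K)} {κ : ℝ} (hκ : ∀ r : 𝓞 K, ∃ s ∈ Bx K κ, s - r ∈ I)
    (ρ : ℝ) (r r' : 𝓞 K) :
    {x ∈ Bx K ρ | x - r' ∈ I}.ncard ≤ {x ∈ Bx K (ρ + κ) | x - r ∈ I}.ncard := by
  obtain ⟨s, hs, hs'⟩ := hκ (r - r')
  refine Set.ncard_le_ncard_of_injOn (fun x => x + s) ?_ (fun a _ b _ h => add_right_cancel h)
    ((bx_finite _).subset (Set.sep_subset _ _))
  rintro x ⟨hx, hx'⟩
  refine ⟨bx_add hx hs, ?_⟩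
  have : x + s - r = (x - r') + (s - (r - r')) := by ring
  rw [this]
  exact I.add_mem hx' hs'

/-- The box is the disjoint union of its classes. -/
theorem sum_class {I : Ideal (𝓞 K)} [Fintype (𝓞 K ⧸ I)] (ρ : ℝ) :
    (Bx K ρ).ncard = ∑ q : 𝓞 K ⧸ I, {x ∈ Bx K ρ | x - Quotient.out q ∈ I}.ncard := by
  classical
  have hfin := bx_finite (K := K) ρ
  rw [Set.ncard_eq_toFinset_card _ hfin,
    Finset.card_eq_sum_card_fiberwise (f := fun x => Ideal.Quotient.mk I x)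
      (t := Finset.univ) (fun _ _ => Finset.mem_univ _)]
  refine Finset.sum_congr rfl fun q _ => ?_
  rw [← Set.ncard_coe_finset]
  congr 1
  ext x
  simp only [Finset.coe_filter, Set.Finite.mem_toFinset, Set.mem_ofPred_eq]
  refine and_congr_right fun _ => ?_
  rw [← Ideal.Quotient.mk_eq_mk_iff_sub_mem]
  have : Ideal.Quotient.mk I (Quotient.out q) = q := Quotient.out_eq _
  rw [this]

end

end Pool.NF
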