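import Pool.Agent.H14.NF.Base

/-!
# NF: statements of the modules: the local part

Dyadic completions: completions `L` of `K` with `2⁻¹ ∉ O`.
-/

set_option autoImplicit false

namespace Pool.NF

open Polynomial Matrix NumberField IsDedekindDomain Pool.HYP Pool.TOW Pool.AVS Pool.T1

/-- CMPN: existence of the completions at the primes which are not above `2`.
(As CMPK of T1, `H50/T1/CMPK`.) -/
def CMPNStmt : Prop :=
  ∀ (K : Type) [Field K] [NumberField K] (P : HeightOneSpectrum (𝓞 K)),
    (2 : 𝓞 K) ∉ P.asIdeal → ∃ (ϖ : 𝓞 K) (L : Type) (_ : Field L) (O' : ValuationSubring L)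
      (ι : K →+* L), ϖ ∈ P.asIdeal ∧ ϖ ∉ P.asIdeal ^ 2 ∧ CompP P ϖ L O' ι

/-- IRUN: `f` irreducible of odd degree modulo `P`, `P` any prime.  (In `K[x]/(f)`, `α` is
`ϖ^n p / b` with `b` not in `P` and `p` not divisible by `P`; `p` is prime to `f` modulo `P`,
the norm of `p` is not in `P`, the norm `ϖ^(n (2g+1)) N(p) / b^(2g+1)` is a square, so `n` is
even.) -/
def IRUNStmt : Prop :=
  ∀ (K : Type) [Field K] [NumberField K] (P : HeightOneSpectrum (𝓞 K)) (g : ℕ)
    (f ρ : (𝓞 K)[X]) (α : K[X]), f.Monic → f.natDegree = 2 * g + 1 →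
    OkP (2 * g + 1) P.asIdeal ρ → Zer P.asIdeal (f - ρ) → IsCoprime α (fk K f) →
    NSq (fk K f) α → US P.asIdeal f α

/-- IRL2: `f` is irreducible over the dyadic completions.  (The elements `a` of `𝓞 K` with `ι a` in
the maximal ideal are a prime `P` above `2`, the residue field of `O` is `𝓞 K / P` since `K` is
dense, `f` is irreducible modulo `P`; `Polynomial.Monic.irreducible_of_irreducible_map`.) -/
def IRL2Stmt : Prop :=
  ∀ (K : Type) [Field K] [NumberField K] (L : Type) [Field L] (O : ValuationSubring L)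
    (ι : K →+* L), Cpl K L O ι → (2 : L)⁻¹ ∉ O → ∀ (D : DatN K) (Y : ℕ), D.Ok →
    ∀ f ∈ FamN D Y, Irreducible ((fk K f).map ι)

/-- SQD: `1 + 8 e` is a square over the dyadic completions.  (Hensel: `z² + z - 2 e`.) -/
def SQDStmt : Prop :=
  ∀ (K : Type) [Field K] [NumberField K] (L : Type) [Field L] (O : ValuationSubring L)
    (ι : K →+* L), Cpl K L O ι → (2 : L)⁻¹ ∉ O → ∀ e : 𝓞 K,
    ∃ z : L, z ≠ 0 ∧ z ^ 2 = ι (algebraMap (𝓞 K) K (1 + 8 * e))

/-- LS2: the twist by a square.  (`u(dx) = d^(deg u) u'`, `w(dx) = z^n w'`.) -/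
def LS2Stmt : Prop :=
  ∀ (R : Type) [CommRing R] (K : Type) [Field K] [Algebra R K] (L : Type) [Field L]
    (ι : K →+* L) (d : R) (f : R[X]) (α : K[X]) (z : L), f.Monic → z ≠ 0 →
    z ^ 2 = ι (algebraMap R K d) → LSDK ι d f α → LocSol ((fk K f).map ι) (α.map ι)

/-- RDU: reduction of divisors on a cubic curve.  (Induction on the degree of `u`: if it is at least
`2`, replace `w` by its remainder and `u` by the cofactor of `w² - f`; if `w = f k`, replace `u` by
the cofactor of `f k² - 1`.) -/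
def RDUStmt : Prop :=
  ∀ (L : Type) [Field L] (f p : L[X]), f.Monic → f.natDegree = 3 → Irreducible f → LocSol f p →
    (∃ s : L[X], f ∣ 1 - p * s ^ 2) ∨
      ∃ (x y : L) (s : L[X]), y ^ 2 = f.eval x ∧ y ≠ 0 ∧ f ∣ (C x - X) - p * s ^ 2

/-- MUL: the classes of the divisors form a group.  (RDU; the chord: `l² - f` is
`-(x - x₁) (x - x₂) (x - x₃)`.) -/
def MULStmt : Prop :=
  ∀ (L : Type) [Field L] (f p q : L[X]), f.Monic → f.natDegree = 3 → Irreducible f →
    LocSol f p → LocSol f q → LocSol f (p * q)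

/-- ISO: the form of the class of a divisor is isotropic.  (RDU; the value at `s` is the coefficient
of `x²` of `x₁ - x` or of `1`.) -/
def ISOStmt : Prop :=
  ∀ (L : Type) [Field L] (f p : L[X]), f.Monic → f.natDegree = 3 → Irreducible f → LocSol f p →
    SplM 1 (gr 0 3 f p)

/-- L2M: the classes with `Loc2` form a group. -/
def L2MStmt : Prop :=
  ∀ (K : Type) [Field K] [NumberField K] (D : DatN K) (Y : ℕ), D.Ok → ∀ f ∈ FamN D Y,
    ∀ α β : K[X], Loc2 f α → Loc2 f β → Loc2 f (α * β)

/-- L2D: the forms of the classes with `Loc2` are isotropic at the dyadic completions. -/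
def L2DStmt : Prop :=
  ∀ (K : Type) [Field K] [NumberField K] (D : DatN K) (Y : ℕ), D.Ok → ∀ f ∈ FamN D Y,
    ∀ α : K[X], Loc2 f α → Dya f α

/-- L2T: the classes of the twist at the dyadic completions. -/
def L2TStmt : Prop :=
  ∀ (K : Type) [Field K] [NumberField K] (f : (𝓞 K)[X]) (d e : 𝓞 K) (α : K[X]), f.Monic →
    d = 1 + 8 * e → (∀ (L : Type) [Field L] (O' : ValuationSubring L) (ι : K →+* L),
      Cpl K L O' ι → LSDK ι d f α) → Loc2 f α

/-- ONEN: a twist with trivial Selmer group.  (As ONEK, `H90/T1/ONEK`: `W` is the set of the types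
at `T` of the classes which are classes of units outside `T` and have `Loc2`; the needs of T1:
LINB, INOK, IRUK, LDAK, LDBK, TWSK, USMK and the type rows of HYP; of NF: CMPN, IRUN, L2M, L2D,
L2T.) -/
def ONENStmt : Prop :=
  ∀ (K : Type) [Field K] [NumberField K] (Ram : Finset (HeightOneSpectrum (𝓞 K))),
    RecN Ram → OneN K Ram

end Pool.NF
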