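import Pool.Agent.H46.NF.Bx

/-!
# NF: lower bounds for boxes, equal distribution of the classes
-/

set_option autoImplicit false

namespace Pool.NF

open NumberField Module

variable {K : Type} [Field K] [NumberField K]

theorem bxe : BXEStmt := by
  intro K _ _ I hI
  classical
  have := finite_quot hI
  have := Fintype.ofFinite (𝓞 K ⧸ I)
  obtain ⟨κ, hκ0, hκ⟩ := exists_reps hI
  have hc : Ni I = Fintype.card (𝓞 K ⧸ I) := Nat.card_eq_fintype_card
  have key : ∀ (ρ : ℝ) (r : 𝓞 K),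
      (Bx K ρ).ncard ≤ Ni I * {x ∈ Bx K (ρ + κ) | x - r ∈ I}.ncard ∧
      Ni I * {x ∈ Bx K ρ | x - r ∈ I}.ncard ≤ (Bx K (ρ + κ)).ncard := by
    intro ρ r
    constructor
    · rw [sum_class (I := I) ρ]
      refine (Finset.sum_le_sum (f := fun q : 𝓞 K ⧸ I =>
        {x ∈ Bx K ρ | x - Quotient.out q ∈ I}.ncard)
        (g := fun _ => {x ∈ Bx K (ρ + κ) | x - r ∈ I}.ncard)
        fun q _ => class_le hκ ρ r (Quotient.out q)).trans (le_of_eq ?_)
      rw [Finset.sum_const, Finset.card_univ, ← hc, smul_eq_mul]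
    · rw [sum_class (I := I) (ρ + κ)]
      refine le_trans (le_of_eq ?_) (Finset.sum_le_sum
        (f := fun _ : 𝓞 K ⧸ I => {x ∈ Bx K ρ | x - r ∈ I}.ncard)
        (g := fun q => {x ∈ Bx K (ρ + κ) | x - Quotient.out q ∈ I}.ncard)
        fun q _ => class_le hκ ρ (Quotient.out q) r)
      rw [Finset.sum_const, Finset.card_univ, ← hc, smul_eq_mul]
  refine ⟨κ + 1, by positivity, fun ρ r _ => ?_⟩
  have hm : ∀ r, {x ∈ Bx K (ρ + κ) | x - r ∈ I}.ncard ≤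
      {x ∈ Bx K (ρ + (κ + 1)) | x - r ∈ I}.ncard := fun r =>
    Set.ncard_le_ncard (fun x hx => ⟨bx_mono (by linarith) hx.1, hx.2⟩)
      ((bx_finite _).subset (Set.sep_subset _ _))
  have hm' : (Bx K (ρ + κ)).ncard ≤ (Bx K (ρ + (κ + 1))).ncard :=
    Set.ncard_le_ncard (bx_mono (by linarith)) (bx_finite _)
  constructor
  · exact_mod_cast (key ρ r).1.trans (Nat.mul_le_mul_left _ (hm r))
  · exact_mod_cast (key ρ r).2.trans hm'

/-- The number of the integral vectors with coordinates of absolute value at most `t`. -/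
theorem card_box_ge {ι : Type} [Fintype ι] (t : ℝ) (ht : 0 ≤ t) :
    ∃ S : Finset (ι → ℤ), (∀ v ∈ S, ∀ i, |(v i : ℝ)| ≤ t) ∧ t ^ Fintype.card ι ≤ S.card := by
  classical
  refine ⟨Fintype.piFinset fun _ => Finset.Icc (-⌊t⌋) ⌊t⌋, ?_, ?_⟩
  · intro v hv i
    rw [Fintype.mem_piFinset] at hv
    have h := Finset.mem_Icc.mp (hv i)
    rw [abs_le]
    have h1 : ((-⌊t⌋ : ℤ) : ℝ) ≤ v i := by exact_mod_cast h.1
    have h2 : ((v i : ℤ) : ℝ) ≤ ⌊t⌋ := by exact_mod_cast h.2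
    have h3 := Int.floor_le t
    push_cast at h1
    constructor <;> linarith
  · rw [Fintype.card_piFinset, Finset.prod_const, Finset.card_univ, Nat.cast_pow]
    refine pow_le_pow_left₀ ht ?_ _
    rw [Int.card_Icc]
    have h0 : 0 ≤ ⌊t⌋ := Int.floor_nonneg.mpr ht
    have h1 : (((⌊t⌋ + 1 - -⌊t⌋).toNat : ℕ) : ℝ) = 2 * ⌊t⌋ + 1 := by
      have : ((⌊t⌋ + 1 - -⌊t⌋).toNat : ℤ) = ⌊t⌋ + 1 - -⌊t⌋ := Int.toNat_of_nonneg (by linarith)
      have h2 : (((⌊t⌋ + 1 - -⌊t⌋).toNat : ℤ) : ℝ) = ((⌊t⌋ + 1 - -⌊t⌋ : ℤ) : ℝ) := by rw [this]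
      rw [Int.cast_natCast] at h2
      rw [h2]
      push_cast
      ring
    rw [h1]
    have h2 := Int.lt_floor_add_one t
    have h3 : (0 : ℝ) ≤ ⌊t⌋ := by exact_mod_cast h0
    linarith

theorem bxl : BXLStmt := by
  intro K _ _
  classical
  obtain ⟨A, φ, hA, -, h2⟩ := coords K
  have hd : Fintype.card (K →+* ℂ) = dg K := Embeddings.card K ℂ
  have key : ∀ ρ : ℝ, 0 ≤ ρ → (A⁻¹ * ρ) ^ dg K ≤ (Bx K ρ).ncard := by
    intro ρ hρ
    obtain ⟨S, hS, hc⟩ := card_box_ge (ι := K →+* ℂ) (A⁻¹ * ρ) (by positivity)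
    rw [hd] at hc
    refine hc.trans ?_
    rw [Nat.cast_le, ← Set.ncard_coe_finset]
    refine Set.ncard_le_ncard_of_injOn φ.symm ?_ φ.symm.injective.injOn (bx_finite _)
    intro v hv σ
    have := h2 (φ.symm v) (A⁻¹ * ρ) (by positivity) (by
      intro i; rw [AddEquiv.apply_symm_apply]; exact hS v hv i) σ
    rwa [← mul_assoc, mul_inv_cancel₀ hA.ne', one_mul] at this
  refine ⟨(A⁻¹ * 2⁻¹) ^ dg K, by positivity, ?_, ?_⟩
  · intro ρ hρ
    have hρ' : 0 ≤ ρ := by linarith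
    refine le_trans ?_ (key ρ hρ')
    rw [← mul_pow]
    refine pow_le_pow_left₀ (by positivity) ?_ _
    have : A⁻¹ * 2⁻¹ * ρ = (A⁻¹ * ρ) * 2⁻¹ := by ring
    rw [this]
    have h0 : 0 ≤ A⁻¹ * ρ := by positivity
    linarith
  · intro I hI
    have := finite_quot hI
    have := Fintype.ofFinite (𝓞 K ⧸ I)
    have hc : Ni I = Fintype.card (𝓞 K ⧸ I) := Nat.card_eq_fintype_card
    obtain ⟨κ, hκ0, hκ⟩ := exists_reps hI
    refine ⟨2 * κ, fun ρ hρ r => ?_⟩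
    have hN : (0 : ℝ) < Ni I := by exact_mod_cast ni_pos hI
    have h0 : 0 ≤ ρ - κ := by linarith
    have h1 : (Bx K (ρ - κ)).ncard ≤ Ni I * {x ∈ Bx K ρ | x - r ∈ I}.ncard := by
      rw [sum_class (I := I) (ρ - κ)]
      have h3 : ∀ q ∈ (Finset.univ : Finset (𝓞 K ⧸ I)),
          {x ∈ Bx K (ρ - κ) | x - Quotient.out q ∈ I}.ncard ≤ {x ∈ Bx K ρ | x - r ∈ I}.ncard := by
        intro q _
        have := class_le hκ (ρ - κ) r (Quotient.out q)
        rwa [sub_add_cancel] at this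
      refine (Finset.sum_le_sum h3).trans (le_of_eq ?_)
      rw [Finset.sum_const, Finset.card_univ, ← hc, smul_eq_mul]
    have h2' : ((Bx K (ρ - κ)).ncard : ℝ) ≤ Ni I * {x ∈ Bx K ρ | x - r ∈ I}.ncard := by
      exact_mod_cast h1
    have h4 := (key (ρ - κ) h0).trans h2'
    have h5 : (A⁻¹ * 2⁻¹) ^ dg K * ρ ^ dg K ≤ (A⁻¹ * (ρ - κ)) ^ dg K := by
      have hρ0 : 0 ≤ ρ := by linarith
      rw [← mul_pow, mul_assoc]
      refine pow_le_pow_left₀ (by positivity) ?_ _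
      refine mul_le_mul_of_nonneg_left ?_ (by positivity)
      linarith
    rw [← mul_div_assoc, div_le_iff₀ hN, mul_comm (({x ∈ Bx K ρ | x - r ∈ I}.ncard : ℕ) : ℝ)]
    exact h5.trans h4

end Pool.NF
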