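import Pool.Agent.H46.NF.NRM

/-!
# NF: upper bound for the number of the elements of a class in a box, uniform in the ideal
-/

set_option autoImplicit false

namespace Pool.NF

open NumberField Module

theorem bxu : BXUStmt := by
  intro K _ _
  classical
  obtain ⟨A, φ, hA, h1, h2⟩ := coords K
  have hd : Fintype.card (K →+* ℂ) = dg K := Embeddings.card K ℂ
  have hn : 0 < dg K := Module.finrank_pos
  refine ⟨(6 + 2 * A * A) ^ dg K * 2 ^ dg K * 2 ^ (dg K - 1), by positivity, ?_⟩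
  intro I hI r ρ hρ
  have hfin : {x ∈ Bx K ρ | x - r ∈ I}.Finite := (bx_finite _).subset (Set.sep_subset _ _)
  refine ⟨hfin, ?_⟩
  have hN : (0 : ℝ) < Ni I := by exact_mod_cast ni_pos hI
  -- the n-th root of the norm
  set δ : ℝ := (Ni I : ℝ) ^ ((dg K : ℝ)⁻¹) with hδ
  have hδ0 : 0 < δ := Real.rpow_pos_of_pos hN _
  have hδn : δ ^ dg K = Ni I := Real.rpow_inv_natCast_pow hN.le hn.ne'
  set s : ℝ := δ / (2 * A) with hs
  have hs0 : 0 < s := by positivity
  -- the cells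
  set F : 𝓞 K → (K →+* ℂ) → ℤ := fun x i => ⌊(φ x i : ℝ) / s⌋ with hF
  have hinj : Set.InjOn F {x ∈ Bx K ρ | x - r ∈ I} := by
    rintro x ⟨hx, hxI⟩ y ⟨hy, hyI⟩ hxy
    by_contra hne
    have hsub : x - y ≠ 0 := sub_ne_zero.mpr hne
    have hmem : x - y ∈ I := by
      have : x - y = (x - r) - (y - r) := by ring
      rw [this]; exact I.sub_mem hxI hyI
    have hco : ∀ i, |(φ (x - y) i : ℝ)| ≤ s := by
      intro i
      have h3 : ⌊(φ x i : ℝ) / s⌋ = ⌊(φ y i : ℝ) / s⌋ := congrFun hxy i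
      have h4 : |(φ x i : ℝ) / s - (φ y i : ℝ) / s| < 1 := Int.abs_sub_lt_one_of_floor_eq_floor h3
      rw [← sub_div, abs_div, abs_of_pos hs0, div_lt_one hs0] at h4
      have h5 : ((φ (x - y) i : ℤ) : ℝ) = (φ x i : ℝ) - φ y i := by
        rw [map_sub, Pi.sub_apply, Int.cast_sub]
      rw [h5]
      exact h4.le
    have hb : x - y ∈ Bx K (A * s) := fun σ => h2 _ s hs0.le hco σ
    have h6 := ni_le_of_mem hb hsub hmem
    have h7 : A * s = δ / 2 := by rw [hs]; field_simp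
    rw [h7, div_pow, hδn] at h6
    have h8 : (1 : ℝ) < 2 ^ dg K := one_lt_pow₀ (by norm_num) hn.ne'
    have h9 : (Ni I : ℝ) / 2 ^ dg K < Ni I := div_lt_self hN h8
    linarith
  -- the number of the cells
  set m : ℤ := ⌊A * ρ / s⌋ + 1 with hm
  have hm0 : 0 ≤ m := by
    have : 0 ≤ ⌊A * ρ / s⌋ := Int.floor_nonneg.mpr (by positivity)
    linarith
  have hmaps : ∀ x ∈ {x ∈ Bx K ρ | x - r ∈ I},
      F x ∈ ((Fintype.piFinset fun _ : K →+* ℂ => Finset.Icc (-m) m : Finset _) :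
        Set ((K →+* ℂ) → ℤ)) := by
    rintro x ⟨hx, -⟩
    rw [Finset.mem_coe, Fintype.mem_piFinset]
    intro i
    have h3 := abs_le.mp (h1 x ρ hρ hx i)
    rw [Finset.mem_Icc]
    constructor
    · rw [hF]
      simp only
      rw [Int.le_floor, le_div_iff₀ hs0]
      have h4 : A * ρ / s < (m : ℝ) := by
        rw [hm]; push_cast; exact Int.lt_floor_add_one _
      rw [div_lt_iff₀ hs0] at h4
      push_cast
      linarith [h3.1]
    · rw [hF]
      simp only
      have h4 : ⌊(φ x i : ℝ) / s⌋ ≤ ⌊A * ρ / s⌋ :=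
        Int.floor_le_floor (div_le_div_of_nonneg_right h3.2 hs0.le)
      linarith
  have hcard : {x ∈ Bx K ρ | x - r ∈ I}.ncard ≤
      (Fintype.piFinset fun _ : K →+* ℂ => Finset.Icc (-m) m).card := by
    rw [← Set.ncard_coe_finset]
    exact Set.ncard_le_ncard_of_injOn F hmaps hinj (Finset.finite_toSet _)
  have hcard2 : (({x ∈ Bx K ρ | x - r ∈ I}.ncard : ℕ) : ℝ) ≤ (2 * (m : ℝ) + 1) ^ dg K := by
    refine (Nat.cast_le.mpr hcard).trans (le_of_eq ?_)
    rw [Fintype.card_piFinset, Finset.prod_const, Finset.card_univ, hd, Int.card_Icc, Nat.cast_pow]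
    congr 1
    have : ((m + 1 - -m).toNat : ℤ) = m + 1 - -m := Int.toNat_of_nonneg (by linarith)
    have h3 : (((m + 1 - -m).toNat : ℤ) : ℝ) = ((m + 1 - -m : ℤ) : ℝ) := by rw [this]
    rw [Int.cast_natCast] at h3
    rw [h3]; push_cast; ring
  refine hcard2.trans ?_
  have hm1 : (m : ℝ) ≤ A * ρ / s + 1 := by
    rw [hm]; push_cast
    linarith [Int.floor_le (A * ρ / s)]
  have h3 : A * ρ / s = 2 * A * A * (ρ / δ) := by rw [hs]; field_simp
  have hq : 0 ≤ ρ / δ := by positivity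
  have h4 : 2 * (m : ℝ) + 1 ≤ (6 + 2 * A * A) * (2 * (1 + ρ / δ)) := by
    rw [h3] at hm1
    have : 0 ≤ A * A := by positivity
    have h5 : 0 ≤ A * A * (ρ / δ) := by positivity
    nlinarith
  have h5 : (2 * (m : ℝ) + 1) ^ dg K ≤ ((6 + 2 * A * A) * (2 * (1 + ρ / δ))) ^ dg K := by
    refine pow_le_pow_left₀ ?_ h4 _
    have : (0 : ℝ) ≤ m := by exact_mod_cast hm0
    linarith
  refine h5.trans ?_
  rw [mul_pow, mul_pow, ← mul_assoc, mul_assoc ((6 + 2 * A * A) ^ dg K * 2 ^ dg K)]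
  refine mul_le_mul_of_nonneg_left ?_ (by positivity)
  have h6 := add_pow_le (zero_le_one' ℝ) hq (dg K)
  rwa [one_pow, div_pow, hδn] at h6

end Pool.NF
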