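import Pool.Agent.H46.NF.RDU
import Pool.Agent.H69.HYP.SPL

/-!
# NF, rows MUL and ISO: the classes of the divisors on a cubic curve
-/

set_option autoImplicit false

namespace Pool.NF

open Polynomial Matrix NumberField IsDedekindDomain Pool.HYP Pool.TOW Pool.AVS Pool.T1

section MUL

variable {L : Type} [Field L]

theorem mk_surj (f : L[X]) (z : AdjoinRoot f) : ∃ s : L[X], AdjoinRoot.mk f s = z :=
  AdjoinRoot.mk_surjective z

/-- A divisor of degree one gives a class. -/
theorem locSol_of_root {f p : L[X]} (hirr : Irreducible f) (hn : f.natDegree = 3) (x : L)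
    (ℓ : L[X]) (h1 : X - C x ∣ ℓ ^ 2 - f) (z : AdjoinRoot f)
    (hz : AdjoinRoot.mk f (C x - X) = AdjoinRoot.mk f p * z ^ 2) : LocSol f p := by
  obtain ⟨s, hs⟩ := mk_surj f z
  refine ⟨X - C x, ℓ, s, monic_X_sub_C x, ?_, h1, ?_⟩
  · refine (hirr.coprime_iff_not_dvd.mpr fun h => ?_).symm
    have h2 := natDegree_le_of_dvd h (X_sub_C_ne_zero x)
    rw [natDegree_X_sub_C, hn] at h2
    omega
  · have h2 : (-1) * (X - C x) = (C x - X : L[X]) := by ring
    rw [natDegree_X_sub_C, pow_one, ← AdjoinRoot.mk_eq_mk, h2, hz, map_mul, map_pow, hs]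

theorem locSol_of_triv {f p : L[X]} (z : AdjoinRoot f) (hz : 1 = AdjoinRoot.mk f p * z ^ 2) :
    LocSol f p := by
  obtain ⟨s, hs⟩ := mk_surj f z
  refine ⟨1, 0, s, monic_one, isCoprime_one_left, one_dvd _, ?_⟩
  rw [natDegree_one, pow_zero, one_mul, ← AdjoinRoot.mk_eq_mk, map_mul, map_pow, hs, ← hz, map_one]

theorem mul : MULStmt := by
  intro L _ f p q hf hn hirr hp hq
  have : Fact (Irreducible f) := ⟨hirr⟩
  have hdvd : ∀ a b : L[X], f ∣ a - b ↔ AdjoinRoot.mk f a = AdjoinRoot.mk f b := fun a b =>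
    AdjoinRoot.mk_eq_mk.symm
  have hX : ∀ x : L, AdjoinRoot.mk f (C x - X) ≠ 0 := by
    intro x h
    rw [AdjoinRoot.mk_eq_zero] at h
    have h2 := natDegree_le_of_dvd h (by
      intro h3
      have := congrArg (fun r => coeff r 1) h3
      simp at this)
    have h3 : (C x - X : L[X]).natDegree = 1 := by
      rw [← natDegree_neg, neg_sub, natDegree_X_sub_C]
    omega
  have hgen : ∀ p q : L[X], (∃ s : L[X], f ∣ 1 - p * s ^ 2) → LocSol f q → LocSol f (p * q) := by
    rintro p q ⟨s, hs⟩ ⟨u, w, t, hu, hc, hd, ht⟩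
    refine ⟨u, w, t * s, hu, hc, hd, ?_⟩
    rw [hdvd] at hs ht ⊢
    rw [ht]
    simp only [map_mul, map_pow, map_one] at hs ⊢
    linear_combination (AdjoinRoot.mk f q * AdjoinRoot.mk f t ^ 2) * hs
  rcases rdu L f p hf hn hirr hp with h1 | ⟨x1, y1, s1, hy1, hy1', h1⟩
  · exact hgen p q h1 hq
  rcases rdu L f q hf hn hirr hq with h2 | ⟨x2, y2, s2, hy2, hy2', h2⟩
  · rw [mul_comm]; exact hgen q p h2 hp
  rw [hdvd] at h1 h2
  have hA1 := hX x1
  have hA2 := hX x2
  have hsq : AdjoinRoot.mk f (p * q) * (AdjoinRoot.mk f s1 * AdjoinRoot.mk f s2) ^ 2 =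
      AdjoinRoot.mk f (C x1 - X) * AdjoinRoot.mk f (C x2 - X) := by
    rw [h1, h2]
    simp only [map_mul, map_pow]
    ring
  by_cases hx : x1 = x2
  · subst hx
    refine locSol_of_triv (AdjoinRoot.mk f s1 * AdjoinRoot.mk f s2 /
      AdjoinRoot.mk f (C x1 - X)) ?_
    rw [div_pow, ← mul_div_assoc, hsq, ← sq, div_self (pow_ne_zero _ hA1)]
  · have hx' : x1 - x2 ≠ 0 := sub_ne_zero.mpr hx
    set m := (y1 - y2) / (x1 - x2) with hm
    set ℓ : L[X] := C m * (X - C x1) + C y1 with hℓ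
    have e1 : ℓ.eval x1 = y1 := by simp [hℓ]
    have e2 : ℓ.eval x2 = y2 := by
      simp only [hℓ, eval_add, eval_mul, eval_C, eval_sub, eval_X, hm]
      field_simp
      ring
    have hr1 : (X - C x1) ∣ f - ℓ ^ 2 := by
      rw [dvd_iff_isRoot, IsRoot, eval_sub, eval_pow, e1, hy1, sub_self]
    have hr2 : (X - C x2) ∣ f - ℓ ^ 2 := by
      rw [dvd_iff_isRoot, IsRoot, eval_sub, eval_pow, e2, hy2, sub_self]
    have hcop : IsCoprime (X - C x1) (X - C x2) :=
      isCoprime_X_sub_C_of_isUnit_sub (isUnit_iff_ne_zero.mpr hx')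
    have hr : (X - C x1) * (X - C x2) ∣ f - ℓ ^ 2 := hcop.mul_dvd hr1 hr2
    have hℓd : ℓ.natDegree ≤ 1 := by
      rw [hℓ]
      refine (natDegree_add_le _ _).trans (max_le ?_ (by simp))
      refine natDegree_mul_le.trans ?_
      rw [natDegree_C, natDegree_X_sub_C]
    have hℓ2 : (ℓ ^ 2).natDegree < f.natDegree := by
      rw [natDegree_pow, hn]; omega
    have hdN : (f - ℓ ^ 2).natDegree = 3 := by
      rw [natDegree_sub_eq_left_of_natDegree_lt hℓ2, hn]
    have hlN : (f - ℓ ^ 2).leadingCoeff = 1 := by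
      rw [leadingCoeff_sub_of_degree_lt (degree_lt_degree hℓ2), hf.leadingCoeff]
    have hN0 : f - ℓ ^ 2 ≠ 0 := by
      intro h; rw [h, natDegree_zero] at hdN; omega
    obtain ⟨u', hu', hdu, he⟩ := cofactor _ _ hN0
      ((monic_X_sub_C x1).mul (monic_X_sub_C x2)) hr
    rw [hlN, C_1, one_mul] at he
    rw [hdN, natDegree_mul (X_sub_C_ne_zero _) (X_sub_C_ne_zero _), natDegree_X_sub_C,
      natDegree_X_sub_C] at hdu
    have hdu' : u'.natDegree = 1 := by omega
    obtain ⟨x3, hx3⟩ : ∃ x3 : L, u' = X - C x3 := by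
      refine ⟨-u'.coeff 0, ?_⟩
      have := hu'.as_sum
      rw [hdu', Finset.sum_range_one, pow_zero, mul_one, pow_one] at this
      rw [C_neg, sub_neg_eq_add]; exact this
    rw [hx3] at he
    have hprod : AdjoinRoot.mk f (C x1 - X) * AdjoinRoot.mk f (C x2 - X) *
        AdjoinRoot.mk f (C x3 - X) = AdjoinRoot.mk f ℓ ^ 2 := by
      rw [← map_mul, ← map_mul, ← map_pow, AdjoinRoot.mk_eq_mk]
      refine ⟨-1, ?_⟩
      linear_combination -he
    refine locSol_of_root hirr hn x3 ℓ ?_ (AdjoinRoot.mk f s1 * AdjoinRoot.mk f s2 *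
      AdjoinRoot.mk f ℓ / (AdjoinRoot.mk f (C x1 - X) * AdjoinRoot.mk f (C x2 - X))) ?_
    · refine ⟨-((X - C x1) * (X - C x2)), ?_⟩
      linear_combination he
    · rw [div_pow, mul_pow _ (AdjoinRoot.mk f ℓ), ← mul_div_assoc, ← mul_assoc, hsq, ← hprod]
      field_simp

theorem iso : ISOStmt := by
  intro L _ f p hf hn hirr hp
  have key : ∀ s q : L[X], f ∣ q - p * s ^ 2 → q.natDegree < 2 → ¬ f ∣ s →
      SplM 1 (gr 0 3 f p) := by
    intro s q h hq hs
    refine ⟨fun _ => vec 3 f s, ?_, ?_⟩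
    · rw [linearIndependent_unique_iff]
      intro h0
      apply hs
      rw [← modByMonic_eq_zero_iff_dvd hf, ← vec_sum hf hn (by norm_num) s]
      refine Finset.sum_eq_zero fun i _ => ?_
      have := congrFun h0 i
      simp only [Pi.zero_apply] at this
      rw [this, C_0, zero_mul]
    · intro _ _
      rw [tau_vec hf hn (by norm_num)]
      have h1 : tau f (p * (s * s)) = tau f q := by
        refine tau_eq_of_dvd hf ?_
        rw [← dvd_neg]
        have : -(p * (s * s) - q) = q - p * s ^ 2 := by ring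
        rwa [this]
      rw [h1]
      exact tau_small hf (Or.inr (by rw [hn]; omega))
  have hns : ∀ s q : L[X], f ∣ q - p * s ^ 2 → q ≠ 0 → q.natDegree < 3 → ¬ f ∣ s := by
    intro s q h h0 hq hs
    have h1 : f ∣ q := by
      have h2 : f ∣ p * s ^ 2 := ((hs.trans (dvd_pow_self s two_ne_zero))).mul_left p
      have := dvd_add h h2
      rwa [sub_add_cancel] at this
    have := natDegree_le_of_dvd h1 h0
    omega
  rcases rdu L f p hf hn hirr hp with ⟨s, h1⟩ | ⟨x, y, s, -, -, h1⟩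
  · exact key s 1 h1 (by rw [natDegree_one]; norm_num)
      (hns s 1 h1 one_ne_zero (by rw [natDegree_one]; norm_num))
  · have h3 : (C x - X : L[X]).natDegree = 1 := by
      rw [← natDegree_neg, neg_sub, natDegree_X_sub_C]
    exact key s _ h1 (by rw [h3]; norm_num) (hns s _ h1 (by
      intro h4; rw [h4, natDegree_zero] at h3; omega) (by rw [h3]; norm_num))

end MUL

end Pool.NF
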