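import Pool.Agent.H46.NF.Bx

/-!
# NF: norms of the elements of a box
-/

set_option autoImplicit false

namespace Pool.NF

open NumberField Module

variable {K : Type} [Field K] [NumberField K]

/-- The absolute value of the norm of an element of `Bx K ρ` is at most `ρ ^ n`. -/
theorem norm_le_of_bx {a : 𝓞 K} {ρ : ℝ} (ha : a ∈ Bx K ρ) :
    (((Algebra.norm ℤ a).natAbs : ℕ) : ℝ) ≤ ρ ^ dg K := by
  have h1 : ((Algebra.norm ℚ (a : K) : ℚ) : ℂ) = ∏ σ : K →ₐ[ℚ] ℂ, σ (a : K) :=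
    Algebra.norm_eq_prod_embeddings ℚ ℂ (a : K)
  have h2 : (((Algebra.norm ℤ a).natAbs : ℕ) : ℝ) = ‖((Algebra.norm ℚ (a : K) : ℚ) : ℂ)‖ := by
    rw [← Algebra.coe_norm_int]
    push_cast
    rw [Complex.norm_intCast, Nat.cast_natAbs, Int.cast_abs]
  rw [h2, h1, norm_prod]
  have h3 : ∏ σ : K →ₐ[ℚ] ℂ, ‖σ (a : K)‖ ≤ ∏ _σ : K →ₐ[ℚ] ℂ, ρ :=
    Finset.prod_le_prod (fun _ _ => norm_nonneg _) fun σ _ => ha σ.toRingHom
  refine h3.trans (le_of_eq ?_)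
  rw [Finset.prod_const, Finset.card_univ, AlgHom.card]

/-- The set of the embeddings is not empty. -/
theorem bx_nonneg {a : 𝓞 K} {ρ : ℝ} (ha : a ∈ Bx K ρ) : 0 ≤ ρ :=
  (norm_nonneg _).trans (ha (Classical.arbitrary (K →+* ℂ)))

theorem ni_span (a : 𝓞 K) : Ni (Ideal.span {a}) = (Algebra.norm ℤ a).natAbs := by
  rw [ni_eq, Ideal.absNorm_span_singleton]

/-- A nonzero element of `I` in `Bx K ρ` gives `Ni I ≤ ρ ^ n`. -/
theorem ni_le_of_mem {I : Ideal (𝓞 K)} {a : 𝓞 K} {ρ : ℝ} (ha : a ∈ Bx K ρ) (h0 : a ≠ 0)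
    (haI : a ∈ I) : (Ni I : ℝ) ≤ ρ ^ dg K := by
  refine le_trans ?_ (norm_le_of_bx ha)
  rw [← ni_span, Nat.cast_le, ni_eq, ni_eq]
  refine Nat.le_of_dvd (Nat.pos_of_ne_zero ?_) (Ideal.absNorm_dvd_absNorm_of_le ?_)
  · rw [Ne, Ideal.absNorm_eq_zero_iff, Ideal.span_singleton_eq_bot]
    exact h0
  · rwa [Ideal.span_singleton_le_iff_mem]

theorem eq_zero_of_bx {a : 𝓞 K} {ρ : ℝ} (ha : a ∈ Bx K ρ) (hρ : ρ < 1) : a = 0 := by
  have h0 := bx_nonneg ha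
  have h1 := norm_le_of_bx ha
  have h2 : ρ ^ dg K < 1 := pow_lt_one₀ h0 hρ (Module.finrank_pos (R := ℚ) (M := K)).ne'
  have h3 : (Algebra.norm ℤ a).natAbs < 1 := by
    have : (((Algebra.norm ℤ a).natAbs : ℕ) : ℝ) < (1 : ℕ) := by
      rw [Nat.cast_one]; exact lt_of_le_of_lt h1 h2
    exact Nat.cast_lt.mp this
  have h4 : Algebra.norm ℤ a = 0 := Int.natAbs_eq_zero.mp (Nat.lt_one_iff.mp h3)
  exact Algebra.norm_eq_zero_iff.mp h4

theorem nrm : NRMStmt := by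
  intro K _ _ a ρ ha
  exact ⟨fun h => eq_zero_of_bx ha h, fun h0 => ⟨ni_le_of_mem ha h0
    (Ideal.mem_span_singleton_self a), fun I hI => ni_le_of_mem ha h0 hI⟩⟩

end Pool.NF
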