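import Pool.Agent.H46.NF.L

/-!
# NF, row RDU: reduction of divisors on a cubic curve
-/

set_option autoImplicit false

namespace Pool.NF

open Polynomial Matrix NumberField IsDedekindDomain Pool.HYP Pool.TOW Pool.AVS Pool.T1

section RDU

variable {L : Type} [Field L]

theorem cofactor (N u : L[X]) (hN : N ≠ 0) (hu : u.Monic) (h : u ∣ N) :
    ∃ u' : L[X], u'.Monic ∧ u.natDegree + u'.natDegree = N.natDegree ∧
      C N.leadingCoeff * (u * u') = N := by
  obtain ⟨v, hv⟩ := h
  have hv0 : v ≠ 0 := by rintro rfl; exact hN (by rw [hv, mul_zero])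
  have hl : N.leadingCoeff = v.leadingCoeff := by
    rw [hv, leadingCoeff_mul, hu.leadingCoeff, one_mul]
  have hlv : v.leadingCoeff ≠ 0 := leadingCoeff_ne_zero.mpr hv0
  have hm : (C v.leadingCoeff⁻¹ * v).Monic := by
    rw [Monic, leadingCoeff_mul, leadingCoeff_C, inv_mul_cancel₀ hlv]
  refine ⟨C v.leadingCoeff⁻¹ * v, hm, ?_, ?_⟩
  · rw [natDegree_C_mul (inv_ne_zero hlv), hv, natDegree_mul hu.ne_zero hv0]
  · rw [hl, hv]
    have : C v.leadingCoeff * (u * (C v.leadingCoeff⁻¹ * v)) =
        C (v.leadingCoeff * v.leadingCoeff⁻¹) * (u * v) := by rw [C_mul]; ring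
    rw [this, mul_inv_cancel₀ hlv, C_1, one_mul]

theorem cop_unit {x : L[X]} (y : L[X]) (h : IsUnit x) : IsCoprime x y := by
  obtain ⟨a, ha⟩ := h.exists_left_inv
  exact ⟨a, 0, by rw [ha, zero_mul, add_zero]⟩

theorem kap_mul_kap (u u' : L[X]) : HYP.kap u * HYP.kap u' =
    (-1) ^ (u.natDegree + u'.natDegree) * (u * u') := by
  unfold HYP.kap
  rw [pow_add]; ring

/-- One step. -/
theorem red_step (f u w : L[X]) (hf : f.Monic) (hn : f.natDegree = 3) (hirr : Irreducible f)
    (hu : u.Monic) (hc : IsCoprime u f) (hd : u ∣ w ^ 2 - f) (h2 : 2 ≤ u.natDegree) :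
    ∃ u' w' t : L[X], u'.Monic ∧ u'.natDegree < u.natDegree ∧ IsCoprime u' f ∧
      u' ∣ w' ^ 2 - f ∧ IsCoprime t f ∧ f ∣ HYP.kap u * HYP.kap u' - t ^ 2 := by
  classical
  have hu1 : u ≠ 1 := by rintro rfl; simp at h2
  set r := w %ₘ u with hr
  have hrd : r.natDegree < u.natDegree := natDegree_modByMonic_lt w hu hu1
  have hru : u ∣ r ^ 2 - f := by
    have h1 : w = r + u * (w /ₘ u) := (modByMonic_add_div w u).symm
    have h3 : r ^ 2 - f = (w ^ 2 - f) - u * (2 * r * (w /ₘ u) + u * (w /ₘ u) ^ 2) := by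
      linear_combination (-(w + r + u * (w /ₘ u))) * h1
    rw [h3]
    exact dvd_sub hd (dvd_mul_right _ _)
  have hnu : ¬ IsUnit u := by
    intro h
    have := natDegree_eq_zero_of_isUnit h
    omega
  by_cases hfr : f ∣ r
  · obtain ⟨k, hk⟩ := hfr
    have hk0 : k ≠ 0 := by
      rintro rfl
      rw [mul_zero] at hk
      rw [hk] at hru
      have h1 : u ∣ f := by
        have := hru
        rwa [zero_pow two_ne_zero, zero_sub, dvd_neg] at this
      exact hnu (hc.isUnit_of_dvd' dvd_rfl h1)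
    have h1 : u ∣ f * k ^ 2 - 1 := by
      have h3 : r ^ 2 - f = f * (f * k ^ 2 - 1) := by rw [hk]; ring
      rw [h3] at hru
      exact hc.dvd_of_dvd_mul_left hru
    have hdk : (f * k ^ 2).natDegree = 3 + 2 * k.natDegree := by
      rw [natDegree_mul hf.ne_zero (pow_ne_zero _ hk0), hn, natDegree_pow]
    have hdN : (f * k ^ 2 - 1).natDegree = 3 + 2 * k.natDegree := by
      rw [natDegree_sub_eq_left_of_natDegree_lt, hdk]
      rw [natDegree_one, hdk]; omega
    have hN0 : f * k ^ 2 - 1 ≠ 0 := by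
      intro h; rw [h, natDegree_zero] at hdN; omega
    have hlN : (f * k ^ 2 - 1).leadingCoeff = k.leadingCoeff ^ 2 := by
      rw [leadingCoeff_sub_of_degree_lt, leadingCoeff_mul, hf.leadingCoeff, one_mul,
        leadingCoeff_pow]
      exact degree_lt_degree (by rw [natDegree_one, hdk]; omega)
    obtain ⟨u', hu', hdu, he⟩ := cofactor _ u hN0 hu h1
    have hrk : r.natDegree = 3 + k.natDegree := by
      rw [hk, natDegree_mul hf.ne_zero hk0, hn]
    have hlk : k.leadingCoeff ≠ 0 := leadingCoeff_ne_zero.mpr hk0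
    refine ⟨u', f * k, C k.leadingCoeff⁻¹, hu', by omega, ?_, ?_, ?_, ?_⟩
    · refine ⟨-(C (f * k ^ 2 - 1).leadingCoeff * u), k ^ 2, ?_⟩
      have : -(C (f * k ^ 2 - 1).leadingCoeff * u) * u' =
          -(C (f * k ^ 2 - 1).leadingCoeff * (u * u')) := by ring
      rw [this, he]; ring
    · have : (f * k) ^ 2 - f = f * (f * k ^ 2 - 1) := by ring
      rw [this, ← he]
      exact ⟨f * (C (f * k ^ 2 - 1).leadingCoeff * u), by ring⟩
    · exact cop_unit _ (isUnit_C.mpr (isUnit_iff_ne_zero.mpr (inv_ne_zero hlk)))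
    · rw [kap_mul_kap, hdu, hdN]
      have h3 : u * u' = C (k.leadingCoeff⁻¹ ^ 2) * (f * k ^ 2 - 1) := by
        conv_rhs => rw [← he, hlN, ← mul_assoc, ← C_mul, ← mul_pow, inv_mul_cancel₀ hlk, one_pow,
          C_1, one_mul]
      rw [h3, C_pow]
      have h4 : (-1 : L[X]) ^ (3 + 2 * k.natDegree) = -1 := by
        rw [pow_add, pow_mul]; norm_num
      rw [h4]
      exact ⟨-(C k.leadingCoeff⁻¹ ^ 2 * k ^ 2), by ring⟩
  · have hcr : IsCoprime r f := (hirr.coprime_iff_not_dvd.mpr hfr).symm
    have hr0 : r ≠ 0 := by rintro h; exact hfr (h ▸ dvd_zero f)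
    have hcN : IsCoprime (r ^ 2 - f) f := by
      have h1 : IsCoprime (r ^ 2) f := hcr.pow_left
      obtain ⟨a, b, hab⟩ := h1
      exact ⟨a, a + b, by rw [← hab]; ring⟩
    have hN0 : r ^ 2 - f ≠ 0 := by
      intro h
      rw [h] at hcN
      exact hirr.not_isUnit (isCoprime_zero_left.mp hcN)
    obtain ⟨u', hu', hdu, he⟩ := cofactor _ u hN0 hu hru
    have hcu' : IsCoprime u' f := by
      refine hcN.of_isCoprime_of_dvd_left ?_
      rw [← he]
      exact ⟨C (r ^ 2 - f).leadingCoeff * u, by ring⟩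
    have hdu' : u' ∣ r ^ 2 - f := by
      conv_rhs => rw [← he]
      exact ⟨C (r ^ 2 - f).leadingCoeff * u, by ring⟩
    by_cases h3 : 2 ≤ r.natDegree
    · have hdr : (r ^ 2).natDegree = 2 * r.natDegree := natDegree_pow _ _
      have hdN : (r ^ 2 - f).natDegree = 2 * r.natDegree := by
        rw [natDegree_sub_eq_left_of_natDegree_lt, hdr]
        rw [hn, hdr]; omega
      have hlN : (r ^ 2 - f).leadingCoeff = r.leadingCoeff ^ 2 := by
        rw [leadingCoeff_sub_of_degree_lt, leadingCoeff_pow]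
        exact degree_lt_degree (by rw [hn, hdr]; omega)
      have hlr : r.leadingCoeff ≠ 0 := leadingCoeff_ne_zero.mpr hr0
      refine ⟨u', r, C r.leadingCoeff⁻¹ * r, hu', by omega, hcu', hdu', ?_, ?_⟩
      · exact (cop_unit _ (isUnit_C.mpr (isUnit_iff_ne_zero.mpr (inv_ne_zero hlr)))).mul_left hcr
      · rw [kap_mul_kap, hdu, hdN, pow_mul, neg_one_sq, one_pow, one_mul]
        have h4 : u * u' = C (r.leadingCoeff⁻¹ ^ 2) * (r ^ 2 - f) := by
          conv_rhs => rw [← he, hlN, ← mul_assoc, ← C_mul, ← mul_pow, inv_mul_cancel₀ hlr, one_pow,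
            C_1, one_mul]
        rw [h4, C_pow]
        exact ⟨-(C r.leadingCoeff⁻¹ ^ 2), by ring⟩
    · have hdr : (r ^ 2).natDegree < f.natDegree := by rw [natDegree_pow, hn]; omega
      have hdN : (r ^ 2 - f).natDegree = 3 := by
        rw [natDegree_sub_eq_right_of_natDegree_lt hdr, hn]
      have hlN : (r ^ 2 - f).leadingCoeff = -1 := by
        rw [leadingCoeff_sub_of_degree_lt' (degree_lt_degree hdr), hf.leadingCoeff]
      refine ⟨u', r, r, hu', by omega, hcu', hdu', hcr, ?_⟩
      rw [kap_mul_kap, hdu, hdN]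
      rw [hlN] at he
      have h4 : u * u' = -(r ^ 2 - f) := by
        rw [← he, C_neg, C_1]; ring
      rw [h4]
      exact ⟨-1, by ring⟩

theorem rdu : RDUStmt := by
  intro L _ f p hf hn hirr ⟨u, w, s, hu, hc, hd, hs⟩
  have key : ∀ (m : ℕ) (u w s : L[X]), u.natDegree = m → u.Monic → IsCoprime u f →
      u ∣ w ^ 2 - f → f ∣ HYP.kap u - p * s ^ 2 →
      (∃ s : L[X], f ∣ 1 - p * s ^ 2) ∨
      ∃ (x y : L) (s : L[X]), y ^ 2 = f.eval x ∧ y ≠ 0 ∧ f ∣ (C x - X) - p * s ^ 2 := by
    intro m
    induction m using Nat.strong_induction_on with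
    | _ m ih =>
      intro u w s hm hu hc hd hs
      rcases Nat.lt_or_ge m 2 with h | h
      · rcases Nat.lt_or_ge m 1 with h1 | h1
        · left
          have h2 : u.natDegree = 0 := by omega
          have h3 : u = 1 := by
            rw [eq_C_of_natDegree_eq_zero h2, ← h2, coeff_natDegree, hu.leadingCoeff, C_1]
          refine ⟨s, ?_⟩
          rw [h3] at hs
          simpa [HYP.kap] using hs
        · right
          have h2 : u.natDegree = 1 := by omega
          have h3 : u = X + C (u.coeff 0) := by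
            have := hu.as_sum
            rw [h2, Finset.sum_range_one, pow_zero, mul_one, pow_one] at this
            exact this
          set x := -u.coeff 0 with hx
          have h4 : u = X - C x := by rw [hx, C_neg, sub_neg_eq_add]; exact h3
          obtain ⟨v, hv⟩ := hd
          have h5 : (w.eval x) ^ 2 = f.eval x := by
            have := congrArg (eval x) hv
            rw [h4] at this
            simp only [eval_sub, eval_pow, eval_mul, eval_X, eval_C, sub_self, zero_mul] at this
            exact sub_eq_zero.mp this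
          refine ⟨x, w.eval x, s, h5, ?_, ?_⟩
          · intro h6
            rw [h6, zero_pow two_ne_zero] at h5
            have h7 : X - C x ∣ f := dvd_iff_isRoot.mpr h5.symm
            rw [← h4] at h7
            have h8 := natDegree_eq_zero_of_isUnit (hc.isUnit_of_dvd' dvd_rfl h7)
            omega
          · have h6 : HYP.kap u = C x - X := by
              unfold HYP.kap
              rw [h2, pow_one, h4]; ring
            rwa [h6] at hs
      · obtain ⟨u', w', t, hu', hlt, hc', hd', hct, hk⟩ := red_step f u w hf hn hirr hu hc hd (by omega)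
        -- invert `kap u` modulo `f`
        have hck : IsCoprime (HYP.kap u) f := by
          unfold HYP.kap
          exact (cop_unit _ (isUnit_one.neg.pow _)).mul_left hc
        obtain ⟨a, b, hab⟩ := hck
        refine ih u'.natDegree (by omega) u' w' (s * t * a) rfl hu' hc' hd' ?_
        obtain ⟨e1, he1⟩ := hs
        obtain ⟨e2, he2⟩ := hk
        refine ⟨HYP.kap u' * b * (1 + a * HYP.kap u) + a ^ 2 * (HYP.kap u * e2 + e1 * t ^ 2), ?_⟩
        linear_combination (-(HYP.kap u' * (1 + a * HYP.kap u))) * hab +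
          a ^ 2 * HYP.kap u * he2 + a ^ 2 * t ^ 2 * he1
  exact key _ u w s rfl hu hc hd hs

end RDU

end Pool.NF
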